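import Pool.Agent.Helper29.TT.Final

set_option autoImplicit false

namespace Pool.Agent.Results.MP_97a3d1_al.TranspositionInvariant

/-- Let `G` be a finite 2-group, `k` algebraically closed of characteristic 2 and `V` a nontrivial
indecomposable representation. For every `m` and every transposition `(i j)` of the tensor
factors, the trivial representation of `G × ⟨(i j)⟩` is not a direct summand of `V^{⊗ m}`. -/
theorem result :
    ∀ (G : Type) [Group G] [Finite G], IsPGroup 2 G →
    ∀ (k : Type) [Field k] [IsAlgClosed k] [CharP k 2]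
      (V : Type) [AddCommGroup V] [Module k V] [FiniteDimensional k V]
      (ρ : Representation k G V),
      (∀ W₁ W₂ : Submodule k V,
          (∀ g : G, ∀ v ∈ W₁, ρ g v ∈ W₁) →
          (∀ g : G, ∀ v ∈ W₂, ρ g v ∈ W₂) →
          IsCompl W₁ W₂ → W₁ = ⊥ ∨ W₂ = ⊥) →
      ¬ (Module.finrank k V = 1 ∧ ∀ g : G, ρ g = 1) →
      ∀ (m : ℕ) (i j : Fin m), i ≠ j →
      ¬ ∃ (w : PiTensorProduct k (fun _ : Fin m => V))
          (f : PiTensorProduct k (fun _ : Fin m => V) →ₗ[k] k),
          (∀ g : G, PiTensorProduct.map (fun _ : Fin m => (ρ g : V →ₗ[k] V)) w = w) ∧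
          (∀ g : G, f ∘ₗ PiTensorProduct.map (fun _ : Fin m => (ρ g : V →ₗ[k] V)) = f) ∧
          PiTensorProduct.reindex k (fun _ : Fin m => V) (Equiv.swap i j) w = w ∧
          (∀ x, f (PiTensorProduct.reindex k (fun _ : Fin m => V) (Equiv.swap i j) x) = f x) ∧
          f w = 1 := by
  intro G _ _ hG k _ _ _ V _ _ _ ρ hI hnt m i j hij
  exact Pool.Agent.Helper29.TT.main G hG k V ρ hI hnt m i j hij

end Pool.Agent.Results.MP_97a3d1_al.TranspositionInvariant
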